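import Mathlib
import Pool.Agent.CIQ.RankQ
import Pool.Agent.CIQ.OrdQ
import Pool.Agent.CIQ.Weil

/-!
# Tate's conjecture for the quotients of the fibre powers of universal complete intersection curves
-/

namespace Pool.Agent.Results.MP_9faec4_nt.CompleteIntersections

open Pool.Agent.CIC

/-- **Quotients by groups of permutations of the fibre powers of universal complete intersection
curves, over every finitely generated base of characteristic zero, and their open subsets: rank and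
order agree.** -/
theorem result (R₀ : Type) [CommRing R₀] [IsDomain R₀] [CharZero R₀] [Algebra.FiniteType ℤ R₀]
    (δ : ℕ) (hδ : Algebra.trdeg ℤ R₀ = δ) (c : ℕ) (hc : 1 ≤ c) (d : Fin c → ℕ)
    (hd : ∀ i, 2 ≤ d i) (hs : c + 2 ≤ ∑ i, d i) :
    ∃ D₀ : MvPolynomial (Idx d) R₀, D₀ ≠ 0 ∧ (family D₀).IsSmooth ∧
      ∀ D : MvPolynomial (Idx d) R₀, D ≠ 0 → D₀ ∣ D → ∀ (r : ℕ)
        (Γ : Subgroup (Equiv.Perm (Fin r))) (e : ((family D).quo Γ).R), e ≠ 0 →
        (((family D).quo Γ).loc e).HasPicRank (numOrb Γ + 1) ∧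
        ∃ ε : ℝ, 0 < ε ∧ (((family D).quo Γ).loc e).EulerOrder
          (δ + 1 + Nat.card (Idx d) + r - ε) (δ + 1 + Nat.card (Idx d) + r + 1 / 2)
          (δ + 1 + Nat.card (Idx d) + r) (numOrb Γ) := by
  obtain ⟨D₁, h1, hg1⟩ := exists_good R₀ (one_le_of_two_le hd) hc
  obtain ⟨V, h0, h1V, hW⟩ := weilF_of (one_le_of_two_le hd) hc h1 hg1
  refine ⟨V, h0, (hg1.of_dvd h1V).sm, fun D hD hVD r Γ e he => ?_⟩
  have hgD : GoodF (family D) := hg1.of_dvd (h1V.trans hVD)
  exact ⟨hasPicRank_loc (hasPicRank_quo hd hc hs hD hgD Γ) he,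
    order_quo hδ hd hc hs hD hgD (hW.of_dvd hVD) Γ he⟩

end Pool.Agent.Results.MP_9faec4_nt.CompleteIntersections
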