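import Mathlib
import Pool.Agent.AR.FinA

/-!
# Tate's conjecture for the twists of powers of Jacobians by integral representations: fibre products of
hyperelliptic pencils and signed groups

`C_i` is the pencil `y ^ 2 = f_i(x) + t g_i(x)`, `i = 0, ..., m`, over a finitely generated base of
characteristic zero or `p`. The marked point `P_j = (x_j, y_j)`, `j = 0, ..., r - 1`, lies on the curve
number `c j + 1`; `T` is the coordinate ring of the fibre product over `R₀[t, 1/Δ]` of the affine
curves `C_(c j + 1)`, `L` its fraction field; `Γ` is a group acting faithfully on `T` over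
`R₀[t, 1/Δ]` such that every element maps every `P_j` to some `P_k` or `-P_k` with `c k = c j`; `K` is the fraction field of
`T^Γ`. Let `M : Γ → GL_k(ℤ)` be any representation, `J` the Jacobian of `C_0` and `A` the abelian
variety over `K` which is the twist of `J ^ k` by `M`, of dimension `k g`. It is split by `L`, and
`A(K) = {u ∈ J(L) ^ k : M(g) g(u) = u for all g ∈ Γ}`. The theorem is Tate's conjecture for the
(dual abelian) varieties `X` with `Pic⁰ X = A`. For `k = 1` and `M = 1` it is the curve `C_0` over `K`, for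
`k = 1` these are the quadratic twists; in general `A` is not a Jacobian, and it is not isogenous over
`K` to a product of abelian varieties of smaller dimension if `M` is irreducible over `ℚ` and the
endomorphism ring of `J` is `ℤ`.
-/

namespace Pool.Agent.Results.MP_9faec4_nt.PencilArtinTwists

open Polynomial Pool.Agent.CAB Pool.Agent.Pen Pool.Agent.LSU Pool.Agent.SG Pool.Agent.AR

/-- **The twists by all integral representations of the powers of the Jacobian of
`y ^ 2 = f_0(x) + t g_0(x)`, over the function fields of the quotients of the fibre products of arbitrary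
curves `y ^ 2 = f_i(x) + t g_i(x)` by signed groups, over every finitely generated base: rank and order
agree.** The first two parts say when suitable `Δ` exist; the inequality says that the difference in
`pairInc` is not truncated. -/
theorem result (R₀ : Type) [CommRing R₀] [IsDomain R₀] [Algebra.FiniteType ℤ R₀]
    (d : ℕ) (hd : HasDim R₀ d) (m : ℕ) (f g : Fin (m + 1) → R₀[X]) (hf : ∀ i, (f i).Monic)
    (hn : ∀ i, Odd (f i).natDegree) (hn3 : ∀ i, 3 ≤ (f i).natDegree) (hg : ∀ i, g i ≠ 0)
    (hgn : ∀ i, (g i).natDegree < (f i).natDegree) :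
    ((∃ Δ : R₀[X], Δ ≠ 0 ∧ ∀ i, Smooth (penP (f i) (g i) Δ)) ↔
      (2 : R₀) ≠ 0 ∧ ∀ i, (((f i).map C + C X * (g i).map C : R₀[X][X]).map
        (algebraMap R₀[X] (FractionRing R₀[X]))).Separable) ∧
    (CharZero R₀ → (∀ i, ∀ p : (FractionRing R₀)[X], p ^ 2 ∣ fr (f i) → p ^ 2 ∣ fr (g i) →
      IsUnit p) → ∃ Δ : R₀[X], Δ ≠ 0 ∧ ∀ i, Smooth (penP (f i) (g i) Δ)) ∧
    ∀ Δ : R₀[X], Δ ≠ 0 → (∀ i, Smooth (penP (f i) (g i) Δ)) →
      (∀ i : Fin m, sqPair (fr (g 0)) (fr (g i.succ)) ≤
        split (corr2 (f 0) (g 0) (f i.succ) (g i.succ)) (twoG2 (g 0) (g i.succ))) ∧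
      ∀ (r : ℕ) (c : Fin r → Fin m) (Γ : Type) [Group Γ]
        (act : Γ → PenT f g Δ c →+* PenT f g Δ c) (hΓ : PenSgnAct act), Finite Γ ∧
        ∀ (k : ℕ) (M : Γ →* Matrix (Fin k) (Fin k) ℤ),
        ∃ N : ℕ, (Nat.card Γ : ℤ) * N = penSumA act M ∧ ArtRank act (penT f g Δ c) M N ∧
          ∀ e : fixA act, e ≠ 0 → ∃ ε : ℝ, 0 < ε ∧ ArtOrder (penFixA hΓ e) (tauA act M e)
            (d + r + 1 - ε) (d + r + 1 + 1 / 2) (d + r + 1) N :=
  Pool.Agent.AR.pencil_act R₀ d hd m f g hf hn hn3 hg hgn

end Pool.Agent.Results.MP_9faec4_nt.PencilArtinTwists
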