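import Mathlib
import Pool.Agent.TQ.RatQ
import Pool.Agent.TQ.LinV

/-!
# Tate's conjecture over the function fields of quotients of fibre products of curves with rational
total spaces: curves with several points at infinity

`C_i` is the smooth curve `P_i = 0` over a finitely generated domain `R`, `i = 0, ..., m`; its points
at infinity are the zeros of the top form, which is separable. The marked point number
`j = 0, ..., r - 1` lies on the curve number `c j + 1`; `Γ` is any group of permutations of the marked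
points which preserves the curves. The field `K` is the function field of the quotient by `Γ` of the
fibre product over `R` of the affine `C_(c j + 1)`, and the curve is `C_0`. The function fields of `R`,
of the `C_i` and of the fibre products of `C_0` and `C_i` are purely transcendental over the fraction
field of `R₀`; this holds for the members `P_i + t_1 Q_i1 + ... + t_k Q_ik` of linear systems, and for
`P_i + t_1 + t_2 x` the ranks are explicit.
-/

namespace Pool.Agent.Results.MP_9faec4_nt.RationalTotals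

open Polynomial Pool.Agent.CAB Pool.Agent.TRI Pool.Agent.TRIP Pool.Agent.TRM Pool.Agent.RAT
open Pool.Agent.LS Pool.Agent.LSU Pool.Agent.MX Pool.Agent.TQ

/-- **Rank and order agree over the function fields of all quotients of fibre products of curves
with rational total spaces (`Agree`); this applies to all linear systems of curves; the numbers `n_i`
for the linear systems `P_i + t_1 + t_2 x`.** -/
theorem result (R₀ : Type) [CommRing R₀] [IsDomain R₀] [Algebra.FiniteType ℤ R₀] (m : ℕ)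
    (d : Fin (m + 1) → Dat) :
    (∀ (R : Type) [CommRing R] [IsDomain R] [Algebra.FiniteType ℤ R] (j : R₀ →+* R),
      Function.Injective j → ∀ D : ℕ, HasDim R D → ∀ P : Fin (m + 1) → R[X][X],
      (∀ i, IsTri (d i) (P i)) → (∀ i, (top (d i) (P i)).Separable) → (∀ i, Smooth (P i)) →
      RatOver j → (∀ i, TotalRat j (P i)) → (∀ i : Fin m, PairRat j (P 0) (P i.succ)) →
      ∃ n : Fin (m + 1) → ℕ, Agree D (d 0) P n) ∧
    (∀ (k : ℕ) (P : Fin (m + 1) → R₀[X][X]) (Q : Fin (m + 1) → Fin k → R₀[X][X])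
      (Δ : MvPolynomial (Fin k) R₀), Δ ≠ 0 →
      (∀ i, IsTri (d i) (P i)) → (∀ i l, LowTri (d i) (Q i l)) → (∃ l, Q 0 l ≠ 0) →
      (∀ i : Fin m, ∃ l l', minor2 (Q 0 l, Q i.succ l) (Q 0 l', Q i.succ l') ≠ 0) →
      (∀ i, Smooth (lsQ (P i) (Q i) Δ)) → (∀ i, (top (d i) (lsQ (P i) (Q i) Δ)).Separable) →
      RatOver (linJ Δ) ∧ (∀ i, TotalRat (linJ Δ) (lsQ (P i) (Q i) Δ)) ∧
        ∀ i : Fin m, PairRat (linJ Δ) (lsQ (P 0) (Q 0) Δ) (lsQ (P i.succ) (Q i.succ) Δ)) ∧
    ∀ D : ℕ, HasDim R₀ D → ∀ P : Fin (m + 1) → R₀[X][X],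
      (∀ i, IsTri (d i) (P i)) → (∀ i, (top (d i) (P i)).Separable) →
      (∃ Δ : MvPolynomial (Fin 2) R₀, Δ ≠ 0 ∧ ∀ i, Smooth (lsQ (P i) ![1, C X] Δ)) ∧
      ∀ Δ : MvPolynomial (Fin 2) R₀, Δ ≠ 0 → (∀ i, Smooth (lsQ (P i) ![1, C X] Δ)) →
        ∀ n : Fin (m + 1) → ℕ, Agree (D + 2) (d 0) (fun i => lsQ (P i) ![1, C X] Δ) n →
          n 0 + 1 = topFactors (d 0) (P 0) ∧
          ∀ i : Fin m, n i.succ + 1 = n 0 + pairFactors (P 0) (P i.succ) := by
  refine ⟨?_, ?_, ?_⟩
  · intro R _ _ _ j hj D hD P hP hT hs hR hR1 hR2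
    obtain ⟨n₀, n, -, h1, h2⟩ := rat_quo_tri hj (bas_of_hasDim hD) (hP 0) (hT 0)
      (hs 0) (Q := fun i : Fin m => P i.succ) (fun i => hP i.succ) (fun i => hT i.succ)
      (fun i => hs i.succ) hR (hR1 0) (fun i => hR1 i.succ) hR2
    exact ⟨Fin.cons n₀ n, fun i => (h1 i).1, h2⟩
  · intro k P Q Δ hΔ hP hQ hQ0 hi hs hT
    exact lin_hyps hP hQ hQ0 hi hΔ hs hT
  · intro D hD P hP hT
    refine ⟨?_, fun Δ hΔ hs n hn => agree_values hD hP hT hΔ hs hn⟩
    obtain ⟨Δ, hΔ, h⟩ := (tri_quotients R₀ D hD m d P hP hT).1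
    exact ⟨Δ, hΔ, fun i => by rw [lsQ_lin]; exact h i⟩

end Pool.Agent.Results.MP_9faec4_nt.RationalTotals
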