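import Mathlib
import Pool.Agent.AR.FinS

/-!
# Tate's conjecture for the twists of powers of Jacobians by integral representations: fibre products of
linear systems of curves and groups of permutations

`C_i` is the curve `P_i + t_1 Q_{i1} + ... + t_k Q_{ik} = 0` of type `(a_i, b_i)`, `i = 0, ..., m`, over
a finitely generated base of characteristic zero or `p`. The marked point number `j = 0, ..., r - 1` lies
on the curve number `c j + 1`; `T` is the coordinate ring of the fibre product over the `t`-space of the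
affine curves `C_(c j + 1)`, `L` its fraction field; `Γ` is any group of permutations of the marked
points which preserves the curves; `K` is the fraction field of `T^Γ`. Let `M : Γ → GL_l(ℤ)` be any
representation, `J` the Jacobian of `C_0` and `A` the abelian variety over `K` which is the twist of
`J ^ l` by `M`, of dimension `l g`. It is split by `L`, and
`A(K) = {u ∈ J(L) ^ l : M(σ) σ(u) = u for all σ ∈ Γ}`. The theorem is Tate's conjecture for the (dual
abelian) varieties `X` with `Pic⁰ X = A`. For `l = 1` and `M = 1` it is the curve `C_0` over `K`, the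
function field of the quotient of the fibre product (for the full symmetric group a symmetric power,
for `r` the genus the universal Jacobian); in general `A` is not a Jacobian.
-/

namespace Pool.Agent.Results.MP_9faec4_nt.SystemArtinTwists

open Polynomial Pool.Agent.CAB Pool.Agent.Pen Pool.Agent.LS Pool.Agent.LSU Pool.Agent.QF
open Pool.Agent.AR

/-- **Linear systems of curves of any types with the same parameters: rank and order agree for the
twists by all integral representations of the powers of the Jacobian of `C_0`, over the function fields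
of all quotients of fibre products by permutations of the marked points.** The first two parts say when
suitable `Δ` exist; the inequalities say that no difference is truncated. -/
theorem result (R₀ : Type) [CommRing R₀] [IsDomain R₀] [Algebra.FiniteType ℤ R₀]
    (d : ℕ) (hd : HasDim R₀ d) (k m : ℕ) (a b : Fin (m + 1) → ℕ)
    (hco : ∀ i, Nat.Coprime (a i) (b i)) (ha : ∀ i, 2 ≤ a i) (hb : ∀ i, 2 ≤ b i)
    (P : Fin (m + 1) → R₀[X][X]) (hP : ∀ i, IsCab (a i) (b i) (P i))
    (Q : Fin (m + 1) → Fin k → R₀[X][X]) (hQ : ∀ i l, LowWt (a i) (b i) (Q i l))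
    (hQ0 : ∃ l, Q 0 l ≠ 0)
    (hi : ∀ i : Fin m, ∃ l l', minor2 (Q 0 l, Q i.succ l) (Q 0 l', Q i.succ l') ≠ 0) :
    ((∃ Δ : MvPolynomial (Fin k) R₀, Δ ≠ 0 ∧ ∀ i, Smooth (lsQ (P i) (Q i) Δ)) ↔ ∀ i,
      Smooth (mapP (algebraMap (MvPolynomial (Fin k) R₀)
        (FractionRing (MvPolynomial (Fin k) R₀))) (lsP (P i) (Q i)))) ∧
    (CharZero R₀ → (∀ i, ∀ 𝔪 : Ideal (FractionRing R₀)[X][X], 𝔪.IsPrime →
      ∃ G ∈ fr2 '' insert (P i) (Set.range (Q i)), G ∉ 𝔪 ∨ derivative G ∉ 𝔪 ∨ dX G ∉ 𝔪) →
      ∃ Δ : MvPolynomial (Fin k) R₀, Δ ≠ 0 ∧ ∀ i, Smooth (lsQ (P i) (Q i) Δ)) ∧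
    ∀ Δ : MvPolynomial (Fin k) R₀, Δ ≠ 0 → (∀ i, Smooth (lsQ (P i) (Q i) Δ)) →
      (numComp (fr2 '' Set.range (Q 0)) ≤ numBase (fr2 '' insert (P 0) (Set.range (Q 0))) ∧
      ∀ i : Fin m, numComp (minors2 (Set.range fun l => (Q 0 l, Q i.succ l))) ≤
          numBase (minors2 (insert (P 0, P i.succ) (Set.range fun l => (Q 0 l, Q i.succ l)))) ∧
        rho0 (P 0) (Q 0) ≤ rho2 (P 0) (Q 0) (P i.succ) (Q i.succ)) ∧
      ∀ (r : ℕ) (c : Fin r → Fin m) (Γ : Subgroup (Equiv.Perm (Fin r)))
        (hΓ : ∀ σ ∈ Γ, ∀ j, c (σ j) = c j) (l : ℕ) (M : Γ →* Matrix (Fin l) (Fin l) ℤ),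
        ∃ N : ℕ, (Nat.card Γ : ℤ) * N = sysSum P Q c M ∧
          ArtRank (sysAct P Q Δ hΓ) (sysT P Q Δ c) M N ∧
          ∀ δ : (sysQuo P Q Δ c Γ hΓ).R, δ ≠ 0 → ∃ ε : ℝ, 0 < ε ∧
            ArtOrder ((sysQuo P Q Δ c Γ hΓ).loc δ) (sysTau P Q Δ hΓ M δ) (d + k + r - ε)
              (d + k + r + 1 / 2) (d + k + r) N :=
  Pool.Agent.AR.system_art R₀ d hd k m a b hco ha hb P hP Q hQ hQ0 hi

end Pool.Agent.Results.MP_9faec4_nt.SystemArtinTwists
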